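import Pool.Agent.Helper80.LD8.NUM8
import Pool.Agent.Helper44.LD8.TT8
import Pool.Agent.Helper4.LD6.NBB

/-!
# LD8, block NBB8: the children with a boundary of the grid at an old time
-/

set_option autoImplicit false

namespace Pool.Agent.Helper4.LD8

open Set MeasureTheory Filter Topology
open Pool.Agent.Helper41.LD4 (NBg)
open Pool.Agent.Helper78.LD8
open Pool.Agent.Helper4.LD6 (few_floor)
open Pool.Agent.Helper80.LD8 (num_K num_Z num_e num_E num_r)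
open Pool.Agent.Helper44.LD8 (Uf_mono Uf_sub lt_Tt)

variable {F : Pm} {K : ℕ} {ℓst a ℓ : ℝ}

theorem T_slow' {j : ℕ} (hj : j < F.T K ℓst ℓ) : F.V K ℓst j * ℓ < F.Th K := by
  unfold Pm.T at hj
  exact lt_Tt (by omega)

/-- old times are slow -/
theorem old_slow (hF : F.Ok) (hK : F.Big K) {m : ℝ} (hm : 0 < m) {j : ℕ}
    (hj : j + F.r K < F.T K ℓst m + F.d) :
    j < F.T K ℓst m ∧ F.V K ℓst j * m * 2 ^ (20 * F.e K) ≤ 1 := by
  have hdr := (num_r hF hK).2.2.2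
  have hE := (num_E hF hK).1
  have hZ := num_Z F
  have hd1 : F.d ≤ F.e K := by
    unfold Pm.e
    have := num_K hK
    calc F.d ≤ (F.d + 4) * 1 := by omega
      _ ≤ (F.d + 4) * K := Nat.mul_le_mul_left _ (by omega)
  have hEe : 21 * F.e K ≤ F.E K := by
    refine le_trans ?_ hE
    exact Nat.mul_le_mul_right _ (by omega)
  have hr : F.r K = F.X * (5 * F.E K) := by
    unfold Pm.r
    ring
  have hjT : j < F.T K ℓst m := by omega
  refine ⟨hjT, ?_⟩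
  obtain ⟨i, hi⟩ : ∃ i, F.T K ℓst m = j + 1 + i := ⟨F.T K ℓst m - (j + 1), by omega⟩
  have hX := hF.hX
  have hi2 : F.X * (3 * F.E K + 20 * F.e K) ≤ i := by
    have h1 : F.X * (3 * F.E K + 20 * F.e K) + F.d ≤ F.X * (5 * F.E K) := by
      have h2 : F.d ≤ F.X * F.d := Nat.le_mul_of_pos_left _ hX
      have h3 : F.X * (3 * F.E K + 20 * F.e K) + F.X * F.d = F.X * (3 * F.E K + 20 * F.e K + F.d) := by ring
      have h4 : F.X * (3 * F.E K + 20 * F.e K + F.d) ≤ F.X * (5 * F.E K) := Nat.mul_le_mul_left _ (by omega)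
      omega
    omega
  have h1 := T_slow' (K := K) (F := F) (ℓst := ℓst) (ℓ := m) (j := j + i) (by omega)
  have hθ0 : 0 < F.θ := by linarith [hF.h1]
  have hV : F.V K ℓst (j + i) = F.V K ℓst j * F.θ ^ i := by
    unfold Pm.V
    rw [← pow_add]
    congr 1
    omega
  rw [hV] at h1
  have hV0 : 0 < F.V K ℓst j := pow_pos hθ0 _
  have h3 : (2 : ℝ) ^ (3 * F.E K + 20 * F.e K) ≤ F.θ ^ i := by
    calc (2 : ℝ) ^ (3 * F.E K + 20 * F.e K) ≤ (F.θ ^ F.X) ^ (3 * F.E K + 20 * F.e K) :=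
          pow_le_pow_left₀ (by norm_num) hF.hθX _
      _ = F.θ ^ (F.X * (3 * F.E K + 20 * F.e K)) := (pow_mul _ _ _).symm
      _ ≤ F.θ ^ i := pow_le_pow_right₀ hF.h1.le hi2
  have h4 : F.V K ℓst j * m * (2 ^ (3 * F.E K) * 2 ^ (20 * F.e K)) ≤ 2 ^ (3 * F.E K) := by
    calc F.V K ℓst j * m * (2 ^ (3 * F.E K) * 2 ^ (20 * F.e K))
        = F.V K ℓst j * m * 2 ^ (3 * F.E K + 20 * F.e K) := by
          rw [← pow_add]
      _ ≤ F.V K ℓst j * m * F.θ ^ i := mul_le_mul_of_nonneg_left h3 (by positivity)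
      _ = F.V K ℓst j * F.θ ^ i * m := by ring
      _ ≤ F.Th K := h1.le
      _ = 2 ^ (3 * F.E K) := rfl
  have h5 : (0 : ℝ) < 2 ^ (3 * F.E K) := by positivity
  have h6 : F.V K ℓst j * m * 2 ^ (20 * F.e K) * 2 ^ (3 * F.E K) ≤ 1 * 2 ^ (3 * F.E K) := by
    linarith
  exact le_of_mul_le_mul_right h6 h5

open Classical in
theorem stage_nb8 (hF : F.Ok) (hK : F.Big K) (hℓ : 0 < ℓ) (hst : ℓ ≤ ℓst) (hst1 : ℓst ≤ 1)
    (hcount : F.T K ℓst (ℓ / 2 ^ F.b K) + F.r K ≤ 2 ^ (2 * K)) (a : ℝ) :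
    (((Finset.range (2 ^ F.b K)).filter fun b : ℕ => ¬ NBg (F.U K ℓst) (F.T K ℓst (ℓ / 2 ^ F.b K) + F.d) (F.r K) (2 ^ K)
      (a + b * (ℓ / (2 ^ F.b K : ℕ))) (ℓ / (2 ^ F.b K : ℕ))).card : ℝ) ≤ (1 / 2) ^ (3 * F.e K) * (2 ^ F.b K : ℕ) := by
  obtain ⟨B, hB⟩ : ∃ B : ℕ, B = 2 ^ F.b K := ⟨_, rfl⟩
  have hBr : (2 : ℝ) ^ F.b K = (B : ℝ) := by
    rw [hB]
    push_cast
    rfl
  rw [← hB]
  rw [hBr] at hcount ⊢
  have hB1 : (1 : ℝ) ≤ B := by
    rw [← hBr]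
    exact one_le_pow₀ (by norm_num)
  have hB0 : (0 : ℝ) < B := by linarith
  obtain ⟨m, hm⟩ : ∃ m : ℝ, m = ℓ / (B : ℝ) := ⟨_, rfl⟩
  rw [← hm] at hcount ⊢
  have hm0 : 0 < m := by
    rw [hm]
    positivity
  have hBm : (B : ℝ) * m = ℓ := by
    rw [hm]
    field_simp
  have hmst : m ≤ ℓst := by
    rw [hm]
    exact (div_le_self hℓ.le hB1).trans hst
  obtain ⟨J, hJ⟩ : ∃ J : ℕ, J = F.T K ℓst m + F.d - F.r K := ⟨_, rfl⟩
  have hJ' : ∀ j, j < J ↔ j + F.r K < F.T K ℓst m + F.d := by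
    intro j
    omega
  -- the union over the old times
  have hsub : ((Finset.range B).filter fun b : ℕ => ¬ NBg (F.U K ℓst) (F.T K ℓst m + F.d) (F.r K) (2 ^ K)
      (a + b * m) m) ⊆ (Finset.range J).biUnion fun j => (Finset.range B).filter fun b : ℕ =>
        ¬ ∀ x ∈ Icc (a + b * m) (a + b * m + m),
          ⌊((2 ^ K : ℕ) : ℝ) * F.U K ℓst j x⌋ = ⌊((2 ^ K : ℕ) : ℝ) * F.U K ℓst j (a + b * m)⌋ := by
    intro b hb
    rw [Finset.mem_filter] at hb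
    obtain ⟨hb1, hb2⟩ := hb
    unfold NBg at hb2
    push Not at hb2
    obtain ⟨j, hj, x, hx, hx2⟩ := hb2
    rw [Finset.mem_biUnion]
    refine ⟨j, Finset.mem_range.2 ((hJ' j).2 hj), ?_⟩
    rw [Finset.mem_filter]
    exact ⟨hb1, fun h => hx2 (h x hx)⟩
  have hθ0 : 0 ≤ F.θ := by linarith [hF.h1]
  have hcard : ∀ j < J, (((Finset.range B).filter fun b : ℕ =>
        ¬ ∀ x ∈ Icc (a + b * m) (a + b * m + m),
          ⌊((2 ^ K : ℕ) : ℝ) * F.U K ℓst j x⌋ = ⌊((2 ^ K : ℕ) : ℝ) * F.U K ℓst j (a + b * m)⌋).card : ℝ) ≤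
        2 ^ K * (2 * B * (1 / 2) ^ (20 * F.e K)) + 1 := by
    intro j hj
    obtain ⟨hj1, hj2⟩ := old_slow hF hK hm0 ((hJ' j).1 hj)
    have hmo : MonotoneOn (F.U K ℓst j) (Icc a (a + B * m)) := by
      intro x hx y hy hxy
      exact Uf_mono hθ0 F.c _ hxy
    refine (few_floor (N₀ := 2 ^ K) hm0.le hmo).trans ?_
    rw [hBm]
    have h3 : F.U K ℓst j (a + ℓ) - F.U K ℓst j a = F.V K ℓst j * ℓ := by
      have := Uf_sub F.θ F.c (F.n₀ K ℓst + j) a (a + ℓ)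
      rw [add_sub_cancel_left] at this
      exact this
    have h5 : F.V K ℓst j * m ≤ (1 / 2) ^ (20 * F.e K) := by
      have h6 : (0 : ℝ) < 2 ^ (20 * F.e K) := by positivity
      have h7 : ((1 : ℝ) / 2) ^ (20 * F.e K) = 1 / 2 ^ (20 * F.e K) := by
        rw [div_pow, one_pow]
      rw [h7, le_div_iff₀ h6]
      exact hj2
    have h8 : F.U K ℓst j (a + ℓ) - F.U K ℓst j a ≤ 2 * B * (1 / 2) ^ (20 * F.e K) := by
      rw [h3]
      have h9 : F.V K ℓst j * ℓ = B * (F.V K ℓst j * m) := by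
        rw [← hBm]
        ring
      rw [h9]
      have h10 := mul_le_mul_of_nonneg_left h5 hB0.le
      have h11 : (0 : ℝ) ≤ B * (1 / 2) ^ (20 * F.e K) := by positivity
      linarith
    have h9 : ((2 ^ K : ℕ) : ℝ) = 2 ^ K := by push_cast; rfl
    rw [h9]
    have h10 : (0 : ℝ) ≤ 2 ^ K := by positivity
    linarith [mul_le_mul_of_nonneg_left h8 h10]
  have hJ2 : (J : ℝ) ≤ 2 ^ (2 * K) := by
    have : J ≤ 2 ^ (2 * K) := by
      by_cases h0 : J = 0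
      · rw [h0]
        exact Nat.zero_le _
      · have := (old_slow hF hK hm0 ((hJ' (J - 1)).1 (by omega))).1
        omega
    exact_mod_cast this
  have hE4 := (num_e F K).1
  have hEE := (num_E hF hK).1
  have hrr := (num_r hF hK).2.2.1
  have hZ := (num_Z F).1
  have hK12 := num_K hK
  have htot : (((Finset.range B).filter fun b : ℕ => ¬ NBg (F.U K ℓst) (F.T K ℓst m + F.d) (F.r K) (2 ^ K)
      (a + b * m) m).card : ℝ) ≤ J * (2 ^ K * (2 * B * (1 / 2) ^ (20 * F.e K)) + 1) := by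
    have h3 : (((Finset.range B).filter fun b : ℕ => ¬ NBg (F.U K ℓst) (F.T K ℓst m + F.d) (F.r K) (2 ^ K)
      (a + b * m) m).card : ℝ) ≤ ∑ j ∈ Finset.range J, (((Finset.range B).filter fun b : ℕ =>
        ¬ ∀ x ∈ Icc (a + b * m) (a + b * m + m),
          ⌊((2 ^ K : ℕ) : ℝ) * F.U K ℓst j x⌋ = ⌊((2 ^ K : ℕ) : ℝ) * F.U K ℓst j (a + b * m)⌋).card : ℝ) := by
      exact_mod_cast (Finset.card_le_card hsub).trans Finset.card_biUnion_le
    refine h3.trans ((Finset.sum_le_sum fun j hj => hcard j (Finset.mem_range.1 hj)).trans ?_)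
    rw [Finset.sum_const, Finset.card_range, nsmul_eq_mul]
  refine htot.trans ?_
  obtain ⟨E, hEd⟩ : ∃ E, E = F.e K := ⟨_, rfl⟩
  rw [← hEd] at hE4 hEE ⊢
  have hEK : 4 * E + 1 ≤ F.b K := by
    have h3 : E ≤ 1000 * F.Z * E := Nat.le_mul_of_pos_left _ (by omega)
    omega
  have hBE : (2 : ℝ) ^ (4 * E + 1) ≤ B := by
    rw [← hBr]
    exact pow_le_pow_right₀ (by norm_num) hEK
  -- first term
  have t1 : (2 : ℝ) ^ (2 * K) * (2 ^ K * (2 * B * (1 / 2) ^ (20 * E))) ≤ 1 / 2 * ((1 / 2) ^ (3 * E) * B) := by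
    have e1 : (2 : ℝ) ^ (2 * K) * (2 ^ K * (2 * B * (1 / 2) ^ (20 * E))) =
        1 / 2 * ((1 / 2) ^ (3 * E) * B) * (2 ^ (3 * K + 2) * (1 / 2) ^ (17 * E)) := by
      have : (20 * E) = 3 * E + 17 * E := by ring
      rw [this, pow_add]
      have e2 : (2 : ℝ) ^ (3 * K + 2) = 2 ^ (2 * K) * 2 ^ K * 4 := by
        have : 3 * K + 2 = 2 * K + K + 2 := by ring
        rw [this, pow_add, pow_add]
        norm_num
      rw [e2]
      ring
    rw [e1]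
    have e3 : (2 : ℝ) ^ (3 * K + 2) * (1 / 2) ^ (17 * E) ≤ 1 := by
      have e4 : (2 : ℝ) ^ (3 * K + 2) ≤ 2 ^ (17 * E) := pow_le_pow_right₀ (by norm_num) (by omega)
      calc (2 : ℝ) ^ (3 * K + 2) * (1 / 2) ^ (17 * E) ≤ 2 ^ (17 * E) * (1 / 2) ^ (17 * E) := by gcongr
        _ = 1 := by
            rw [← mul_pow]
            norm_num
    exact mul_le_of_le_one_right (by positivity) e3
  have t2 : (2 : ℝ) ^ (2 * K) ≤ 1 / 2 * ((1 / 2) ^ (3 * E) * B) := by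
    have e1 : (2 : ℝ) ^ (2 * K) ≤ 2 ^ E := pow_le_pow_right₀ (by norm_num) (by omega)
    have e2 : (1 : ℝ) / 2 * ((1 / 2) ^ (3 * E) * 2 ^ (4 * E + 1)) = 2 ^ E := by
      have : 4 * E + 1 = 3 * E + E + 1 := by ring
      rw [this, pow_add, pow_add]
      have e3 : ((1 : ℝ) / 2) ^ (3 * E) * 2 ^ (3 * E) = 1 := by
        rw [← mul_pow]
        norm_num
      linear_combination (2 : ℝ) ^ E * e3
    calc (2 : ℝ) ^ (2 * K) ≤ 2 ^ E := e1
      _ = 1 / 2 * ((1 / 2) ^ (3 * E) * 2 ^ (4 * E + 1)) := e2.symm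
      _ ≤ 1 / 2 * ((1 / 2) ^ (3 * E) * B) := by gcongr
  have h0 : 0 ≤ 2 ^ K * (2 * (B : ℝ) * (1 / 2) ^ (20 * E)) + 1 := by positivity
  calc (J : ℝ) * (2 ^ K * (2 * B * (1 / 2) ^ (20 * E)) + 1) ≤ 2 ^ (2 * K) * (2 ^ K * (2 * B * (1 / 2) ^ (20 * E)) + 1) :=
        mul_le_mul_of_nonneg_right hJ2 h0
    _ = 2 ^ (2 * K) * (2 ^ K * (2 * B * (1 / 2) ^ (20 * E))) + 2 ^ (2 * K) := by ring
    _ ≤ (1 / 2) ^ (3 * E) * B := by linarith

end Pool.Agent.Helper4.LD8
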